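import Mathlib

namespace Pool.Agent.Results.MP_aafbbc_al.Quaternions

open Polynomial Quaternion

/-- `G` is isomorphic to the unit group of a finite ring of characteristic `n`. -/
def RealizableChar (G : Type) [Group G] (n : ℕ) : Prop :=
  ∃ (R : Type) (_ : Ring R) (_ : Finite R), CharP R n ∧ Nonempty (Rˣ ≃* G)

/-- `G` is not isomorphic to a direct product of two nontrivial groups. -/
def Indecomposable (G : Type) [Group G] : Prop :=
  ∀ (A B : Type) [Group A] [Group B], Nonempty (G ≃* A × B) → Subsingleton A ∨ Subsingleton B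

abbrev K := ZMod 512

lemma h512 : (512 : K) = 0 := by decide +kernel

lemma h256 : (256 : K) ≠ 0 := by decide +kernel

lemma d3 (c : K) : ∃ t : K, c = 2 * t ∨ c = 1 + 2 * t := by
  obtain ⟨n, rfl⟩ := ZMod.intCast_surjective c
  obtain ⟨k, rfl | rfl⟩ := Int.even_or_odd' n
  · exact ⟨k, .inl (by push_cast; ring)⟩
  · exact ⟨k, .inr (by push_cast; ring)⟩

lemma d2 (c : K) : (∃ t : K, c = 2 * t) ∨ IsUnit c := by
  obtain ⟨t, h | rfl⟩ := d3 c
  · exact .inl ⟨t, h⟩
  · exact .inr (IsNilpotent.isUnit_one_add ⟨9, by linear_combination t ^ 9 * h512⟩)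

lemma not_unit (t : K) : ¬ IsUnit (2 * t) := fun h =>
  h256 (h.mul_right_eq_zero.1 (by linear_combination t * h512))

lemma d4 (c : K) (h : 2 * c = 0) : ∃ t : K, c = 256 * t := by
  obtain ⟨n, rfl⟩ := ZMod.intCast_surjective c
  have : ((512 : ℕ) : ℤ) ∣ 2 * n := (ZMod.intCast_zmod_eq_zero_iff_dvd _ _).1 (by push_cast; exact h)
  obtain ⟨k, hk⟩ := this
  exact ⟨k, by rw [show n = 256 * k by omega]; push_cast; ring⟩

lemma sq8 (m : K) : ∃ t : K, 1 + 8 * m = (1 + 2 * t) * (1 + 2 * t) :=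
  ⟨2 * m - 4 * m ^ 2 + 16 * m ^ 3 - 80 * m ^ 4 + 448 * m ^ 5, by
    linear_combination (-(1568 * m ^ 10 - 560 * m ^ 9 + 162 * m ^ 8 - 48 * m ^ 7
      + 21 * m ^ 6)) * h512⟩

lemma d1 (c : K) (hc : IsUnit c) : ∃ t : K, c = (1 + 2 * t) * (1 + 2 * t) ∨
    c = -((1 + 2 * t) * (1 + 2 * t)) ∨ c = -3 * ((1 + 2 * t) * (1 + 2 * t)) ∨
    c = 3 * ((1 + 2 * t) * (1 + 2 * t)) := by
  obtain ⟨a, rfl | rfl⟩ := d3 c
  · exact (not_unit a hc).elim
  obtain ⟨b, rfl | rfl⟩ := d3 a <;> obtain ⟨m, rfl | rfl⟩ := d3 b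
  · exact (sq8 m).imp fun t h => .inl (by linear_combination h)
  · exact (sq8 (341 * m + 213)).imp fun t h => .inr (.inr (.inl
      (by linear_combination (-3) * h + (10 + 16 * m) * h512)))
  · exact (sq8 (171 * m + 64)).imp fun t h => .inr (.inr (.inr
      (by linear_combination 3 * h - (3 + 8 * m) * h512)))
  · exact (sq8 (-m - 1)).imp fun t h => .inr (.inl (by linear_combination -h))

instance : Finite ℍ[K] := Finite.of_equiv _ (QuaternionAlgebra.equivTuple (-1 : K) 0 (-1)).symm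

lemma cardH : Nat.card ℍ[K] = 512 ^ 4 := by
  refine (Nat.card_congr (QuaternionAlgebra.equivTuple (-1 : K) 0 (-1))).trans ?_
  simp

lemma expo (u : ℍ[K]ˣ) : u ^ 2 ^ 9 = 1 := by
  have h : ∀ j : ℕ, ∃ w : ℍ[K], (u : ℍ[K]) ^ 2 ^ (j + 1) = 1 + (2 ^ (j + 1) : K) • w := by
    intro j
    induction j with
    | zero =>
      obtain ⟨t, ht | ht⟩ := d3 (normSq (u : ℍ[K]))
      · exact (not_unit t (ht ▸ u.isUnit.map normSq)).elim
      · rw [normSq_def'] at ht
        refine ⟨(u : ℍ[K]).re • (u : ℍ[K]) - ((1 + t : K) : ℍ[K]), ?_⟩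
        ext <;> simp [sq] <;> first | linear_combination -ht | ring
    | succ j ih =>
      obtain ⟨w, hw⟩ := ih
      refine ⟨w + (2 ^ j : K) • (w * w), ?_⟩
      rw [pow_succ 2 (j + 1), pow_mul, hw, sq]
      simp only [mul_add, add_mul, one_mul, mul_one, smul_mul_assoc, mul_smul_comm, smul_add,
        smul_smul, pow_succ]
      module
  obtain ⟨w, hw⟩ := h 8
  ext1
  rw [Units.val_pow_eq_pow_val, hw, show (2 ^ (8 + 1) : K) = 0 by linear_combination h512]
  simp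

lemma not_two : ¬ RealizableChar ℍ[K]ˣ 2 := by
  rintro ⟨R, _, _, _, ⟨φ⟩⟩
  have d5 : (5 : K) ^ 128 = 1 ∧ (5 : K) ^ 64 ≠ 1 := by decide +kernel
  let g : ℍ[K]ˣ := Units.map (algebraMap K ℍ[K]).toMonoidHom (Units.ofPowEqOne 5 128 d5.1 (by simp))
  have g1 : g ^ 128 = 1 := by
    rw [← map_pow, Units.pow_ofPowEqOne, map_one]
  have g2 : g ^ 64 ≠ 1 := fun h => d5.2 (algebraMap_injective (by
    simpa [g] using congrArg Units.val h))
  letI : Algebra (ZMod 2) R := ZMod.algebra R 2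
  set y : R := (φ.symm g : Rˣ) - 1
  have hy : ∀ n : ℕ, y ^ 2 ^ n = (φ.symm (g ^ 2 ^ n) : Rˣ) - 1 := fun n => by
    rw [sub_pow_char_pow_of_commute _ _ (Commute.one_right _)]; simp
  have y1 : y ^ 128 = 0 := by simpa [g1] using hy 7
  have y2 : y ^ 64 ≠ 0 := fun h => g2 (by
    have := hy 6
    norm_num [h] at this
    rw [eq_comm, sub_eq_zero, ← Units.val_pow_eq_pow_val, ← map_pow, Units.val_eq_one] at this
    exact φ.symm.map_eq_one_iff.1 (by rw [map_pow]; simpa using this))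
  obtain ⟨k, -, hk⟩ := (dvd_prime_pow prime_X 128).1
    (minpoly.dvd (ZMod 2) y (p := X ^ 128) (by simpa using y1))
  have hk2 : 64 < k := by
    by_contra hc
    have : y ^ k = 0 := by simpa using aeval_eq_zero_of_dvd_aeval_eq_zero hk.dvd (minpoly.aeval _ y)
    exact y2 (pow_eq_zero_of_le (not_lt.1 hc) this)
  have hun : ∀ p : (ZMod 2)[X], IsUnit (1 + aeval y (X * p)) := fun p =>
    IsNilpotent.isUnit_one_add ⟨128, by rw [← map_pow, mul_pow, map_mul]; simp [y1]⟩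
  let f : degreeLT (ZMod 2) 64 → ℍ[K] := fun p => φ (hun p).unit
  have hf : Function.Injective f := fun p q h => by
    have h1 : aeval y (X * (p - q : (ZMod 2)[X])) = 0 := by
      have := congrArg Units.val (φ.injective (Units.val_injective h))
      simp only [IsUnit.unit_spec, add_right_inj] at this
      rw [mul_sub, map_sub, this, sub_self]
    have h2 : (X : (ZMod 2)[X]) ^ 64 ∣ (p - q : (ZMod 2)[X]) := by
      have := (pow_dvd_pow X hk2).trans (hk.symm.dvd.trans (minpoly.dvd _ y h1))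
      rwa [pow_succ', mul_dvd_mul_iff_left X_ne_zero] at this
    have h3 := mem_degreeLT.1 (sub_mem p.2 q.2)
    exact Subtype.ext (sub_eq_zero.1 (eq_zero_of_dvd_of_degree_lt h2 (by simpa using h3)))
  have := Nat.card_le_card_of_injective f hf
  rw [cardH, Nat.card_congr (degreeLTEquiv (ZMod 2) 64).toEquiv] at this
  simp at this

lemma cross {a b c : ℍ[K]} (h1 : a * b = b * a) (h2 : a * c = c * a)
    (h : IsUnit a.imI ∨ IsUnit a.imJ ∨ IsUnit a.imK) : b * c = c * b := by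
  have p1 := congrArg QuaternionAlgebra.imI h1
  have p2 := congrArg QuaternionAlgebra.imJ h1
  have p3 := congrArg QuaternionAlgebra.imK h1
  have q1 := congrArg QuaternionAlgebra.imI h2
  have q2 := congrArg QuaternionAlgebra.imJ h2
  have q3 := congrArg QuaternionAlgebra.imK h2
  simp only [imI_mul, imJ_mul, imK_mul] at p1 p2 p3 q1 q2 q3
  rcases h with h | h | h <;> ext <;> simp only [re_mul, imI_mul, imJ_mul, imK_mul] <;>
    refine h.mul_left_cancel ?_
  · ring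
  · linear_combination c.imK * p3 + c.imJ * p2 + b.imI * q1
  · linear_combination b.imI * q2 - c.imI * p2
  · linear_combination b.imI * q3 - c.imI * p3
  · ring
  · linear_combination b.imJ * q1 - c.imJ * p1
  · linear_combination c.imK * p3 + c.imI * p1 + b.imJ * q2
  · linear_combination b.imJ * q3 - c.imJ * p3
  · ring
  · linear_combination b.imK * q1 - c.imK * p1
  · linear_combination b.imK * q2 - c.imK * p2
  · linear_combination c.imI * p1 + c.imJ * p2 + b.imK * q3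

def ui : ℍ[K]ˣ := ⟨⟨0, 1, 0, 0⟩, ⟨0, -1, 0, 0⟩, by ext <;> simp, by ext <;> simp⟩

def uj : ℍ[K]ˣ := ⟨⟨0, 0, 1, 0⟩, ⟨0, 0, -1, 0⟩, by ext <;> simp, by ext <;> simp⟩

def us : ℍ[K]ˣ := ⟨⟨0, 1, 1, 1⟩, ⟨0, -171, -171, -171⟩,
  by ext <;> simp; linear_combination h512, by ext <;> simp; linear_combination h512⟩

lemma central (z : ℍ[K]ˣ) (hz : ∀ u, z * u = u * z) :
    ∃ a b w : ℍ[K]ˣ, z = a ^ 2 * b ^ 2 * w ^ 2 := by
  have e1 := congrArg Units.val (hz ui)
  have e2 := congrArg Units.val (hz uj)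
  have p1 := congrArg QuaternionAlgebra.imK e2
  have p2 := congrArg QuaternionAlgebra.imK e1
  have p3 := congrArg QuaternionAlgebra.imJ e1
  simp [ui, uj] at p1 p2 p3
  obtain ⟨x1, h1⟩ := d4 (z : ℍ[K]).imI (by linear_combination p1)
  obtain ⟨x2, h2⟩ := d4 (z : ℍ[K]).imJ (by linear_combination -p2)
  obtain ⟨x3, h3⟩ := d4 (z : ℍ[K]).imK (by linear_combination p3)
  have hu : IsUnit (z : ℍ[K]).re := by
    refine (d2 _).resolve_left fun ⟨t, ht⟩ => not_unit (2 * t ^ 2) ?_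
    convert z.isUnit.map normSq using 1
    rw [normSq_def', ht, h1, h2, h3]
    linear_combination (-128 * (x1 ^ 2 + x2 ^ 2 + x3 ^ 2)) * h512
  have key : ∀ (e : ℍ[K]ˣ) (ε t : K), (e : ℍ[K]) = ((1 + 2 * ε : K) : ℍ[K]) →
      (z : ℍ[K]).re = (1 + 2 * ε) * ((1 + 2 * t) * (1 + 2 * t)) → ∃ w, z = e * w ^ 2 := by
    intro e ε t he ht
    let w : ℍ[K] := ⟨1 + 2 * t, 128 * x1, 128 * x2, 128 * x3⟩
    have hw : (z : ℍ[K]) = e * (w * w) := by
      rw [he]
      ext <;> simp [w]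
      · linear_combination ht + 32 * (1 + 2 * ε) * (x1 ^ 2 + x2 ^ 2 + x3 ^ 2) * h512
      · linear_combination h1 - (ε + t + 2 * ε * t) * x1 * h512
      · linear_combination h2 - (ε + t + 2 * ε * t) * x2 * h512
      · linear_combination h3 - (ε + t + 2 * ε * t) * x3 * h512
    have : IsUnit w := IsUnit.of_mul_eq_one (w * (z⁻¹ * e : ℍ[K]ˣ)) (by
      rw [← mul_assoc, mul_eq_one_comm, Units.val_mul, mul_assoc, ← hw]; simp)
    obtain ⟨w', hw'⟩ := this
    exact ⟨w', Units.ext (by simp [hw, hw', sq])⟩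
  obtain ⟨t, h | h | h | h⟩ := d1 _ hu
  · obtain ⟨w, hw⟩ := key (1 ^ 2 * 1 ^ 2) 0 t (by simp) (by linear_combination h)
    exact ⟨_, _, w, hw⟩
  · obtain ⟨w, hw⟩ := key (ui ^ 2 * 1 ^ 2) (-1) t (by ext <;> simp [ui, sq]; ring)
      (by linear_combination h)
    exact ⟨_, _, w, hw⟩
  · obtain ⟨w, hw⟩ := key (1 ^ 2 * us ^ 2) (-2) t (by ext <;> simp [us, sq]; ring)
      (by linear_combination h)
    exact ⟨_, _, w, hw⟩
  · obtain ⟨w, hw⟩ := key (ui ^ 2 * us ^ 2) 1 t (by ext <;> simp [ui, us, sq]; ring)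
      (by linear_combination h)
    exact ⟨_, _, w, hw⟩

lemma half {A B : Type} [Group A] [Group B] (φ : ℍ[K]ˣ ≃* A × B) (a : A)
    (h : IsUnit (φ.symm (a, 1) : ℍ[K]).imI ∨ IsUnit (φ.symm (a, 1) : ℍ[K]).imJ ∨
      IsUnit (φ.symm (a, 1) : ℍ[K]).imK) : Subsingleton B := by
  have hc : ∀ b c : B, b * c = c * b := fun b c => by
    have := cross (b := (φ.symm (1, b) : ℍ[K]ˣ)) (c := (φ.symm (1, c) : ℍ[K]ˣ))
      (by simp [← Units.val_mul, ← map_mul]) (by simp [← Units.val_mul, ← map_mul]) h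
    rw [← Units.val_mul, ← Units.val_mul, ← map_mul, ← map_mul] at this
    exact congrArg Prod.snd (φ.symm.injective (Units.val_injective this))
  letI : CommGroup B := { ‹Group B› with mul_comm := hc }
  have hs : ∀ b : B, ∃ c, b = c ^ 2 := fun b => by
    obtain ⟨u, v, w, e⟩ := central (φ.symm (1, b)) fun u => φ.injective (by
      ext <;> simp [hc])
    refine ⟨(φ u).2 * (φ v).2 * (φ w).2, ?_⟩
    simpa [mul_pow] using congrArg (fun x => (φ x).2) e
  have hn : ∀ n : ℕ, ∀ b : B, ∃ c, b = c ^ 2 ^ n := fun n => by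
    induction n with
    | zero => simp
    | succ n ih =>
      intro b
      obtain ⟨c, rfl⟩ := ih b
      obtain ⟨d, rfl⟩ := hs c
      exact ⟨d, by rw [← pow_mul, pow_succ']⟩
  refine subsingleton_of_forall_eq 1 fun b => ?_
  obtain ⟨c, rfl⟩ := hn 9 b
  have := congrArg (fun x => (φ x).2) (expo (φ.symm (1, c)))
  simpa only [map_pow, MulEquiv.apply_symm_apply, Prod.pow_snd, map_one, Prod.snd_one] using this

lemma indec : Indecomposable ℍ[K]ˣ := by
  rintro A B _ _ ⟨φ⟩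
  by_contra hc
  push Not at hc
  obtain ⟨⟨a, b⟩, hab⟩ := φ.symm.surjective ui
  have ha := mt (half φ a) (not_subsingleton_iff_nontrivial.2 hc.2)
  have hb := mt (half (φ.trans MulEquiv.prodComm) b) (not_subsingleton_iff_nontrivial.2 hc.1)
  push Not at ha hb
  change ¬ IsUnit (φ.symm (1, b) : ℍ[K]).imI ∧ ¬ IsUnit (φ.symm (1, b) : ℍ[K]).imJ ∧
    ¬ IsUnit (φ.symm (1, b) : ℍ[K]).imK at hb
  have e : (φ.symm (a, 1) : ℍ[K]) * (φ.symm (1, b) : ℍ[K]) = ui := by
    simp [← Units.val_mul, ← map_mul, hab]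
  obtain ⟨s1, h1⟩ := (d2 _).resolve_right ha.1
  obtain ⟨s2, h2⟩ := (d2 _).resolve_right ha.2.1
  obtain ⟨s3, h3⟩ := (d2 _).resolve_right ha.2.2
  obtain ⟨t1, k1⟩ := (d2 _).resolve_right hb.1
  have := congrArg QuaternionAlgebra.imI e
  simp only [imI_mul, h1, h2, h3, k1, ui] at this
  refine not_unit ((φ.symm (a, 1) : ℍ[K]).re * t1 + s1 * (φ.symm (1, b) : ℍ[K]).re +
    s2 * (φ.symm (1, b) : ℍ[K]).imK - s3 * (φ.symm (1, b) : ℍ[K]).imJ) ?_
  convert isUnit_one using 1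
  linear_combination this

theorem result : ∃ (G : Type) (_ : Group G) (_ : Finite G) (m : ℕ), IsPGroup 2 G ∧
    Indecomposable G ∧ 2 ≤ m ∧ RealizableChar G (2 ^ m) ∧ ¬ RealizableChar G 2 :=
  ⟨ℍ[K]ˣ, inferInstance, inferInstance, 9, fun u => ⟨9, expo u⟩, indec, by norm_num,
    ⟨ℍ[K], inferInstance, inferInstance,
      charP_of_injective_algebraMap (R := K) algebraMap_injective 512, ⟨MulEquiv.refl _⟩⟩, not_two⟩

end Pool.Agent.Results.MP_aafbbc_al.Quaternions
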